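import Mathlib

open Filter Topology MeasureTheory Set NormedSpace

namespace Pool.Agent.Results.MP_cf5fc4_an.Growth

section
variable {𝔸 : Type*} [NormedRing 𝔸] [NormedAlgebra ℂ 𝔸] [CompleteSpace 𝔸]

lemma hd (M : 𝔸) (t : ℝ) :
    HasDerivAt (fun u : ℝ => exp ((u : ℂ) • M)) (exp ((t : ℂ) • M) * M) t := by
  have := (hasDerivAt_exp_smul_const (𝕂 := ℂ) M (t : ℂ)).scomp t Complex.ofRealCLM.hasDerivAt
  rw [Complex.ofRealCLM_apply, Complex.ofReal_one, one_smul] at this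
  exact this

lemma decay (M : 𝔸) (δ : ℝ) (l : List ℂ) (hl : ∀ a ∈ l, a.re < -δ) : ∀ W : 𝔸,
    (l.map fun a => M - algebraMap ℂ 𝔸 a).prod * W = 0 →
    ∃ C, 0 ≤ C ∧ ∀ t : ℝ, 0 ≤ t → ‖exp ((t : ℂ) • M) * W‖ ≤ C * Real.exp (-δ * t) := by
  induction l using List.reverseRecOn with
  | nil =>
    intro W h
    simp only [List.map_nil, List.prod_nil, one_mul] at h
    exact ⟨0, le_rfl, fun t _ => by simp [h]⟩
  | append_singleton l a ih =>
    intro W h
    obtain ⟨C, hC0, hC⟩ := ih (fun b hb => hl b (by simp [hb])) ((M - algebraMap ℂ 𝔸 a) * W)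
      (by simpa [mul_assoc] using h)
    have ha := hl a (by simp)
    set κ := -a.re - δ with hκ
    have hκ0 : 0 < κ := by linarith
    have hf : ∀ t : ℝ, HasDerivAt (fun u : ℝ => Complex.exp (-a * u) • (exp ((u : ℂ) • M) * W))
        (Complex.exp (-a * t) • (exp ((t : ℂ) • M) * ((M - algebraMap ℂ 𝔸 a) * W))) t := by
      intro t
      have h1 : HasDerivAt (fun u : ℝ => Complex.exp (-a * u)) (Complex.exp (-a * t) * -a) t := by
        have := (((hasDerivAt_id (t : ℂ)).const_mul (-a)).cexp).comp_ofReal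
        simpa using this
      refine (h1.smul ((hd M t).mul_const W)).congr_deriv ?_
      rw [sub_mul, mul_sub, smul_sub, ← Algebra.smul_def, mul_smul_comm, mul_assoc, smul_smul,
        mul_neg, neg_smul, sub_eq_add_neg]
    have hB : ∀ t : ℝ, HasDerivAt (fun u : ℝ => ‖W‖ + C / κ * Real.exp (κ * u))
        (C * Real.exp (κ * t)) t := by
      intro t
      refine ((((hasDerivAt_id t).const_mul κ).exp.const_mul (C / κ)).const_add _).congr_deriv ?_
      simp only [id]; field_simp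
    have hn : ∀ t : ℝ, ‖Complex.exp (-a * t)‖ = Real.exp (-a.re * t) := fun t => by
      rw [Complex.norm_exp]; simp
    refine ⟨‖W‖ + C / κ, by positivity, fun t ht => ?_⟩
    have key := image_norm_le_of_norm_deriv_right_le_deriv_boundary (a := 0) (b := t)
      (fun x _ => (hf x).continuousAt.continuousWithinAt) (fun x _ => (hf x).hasDerivWithinAt)
      (by simp; positivity) hB (fun x hx => by
        rw [norm_smul, hn]
        refine (mul_le_mul_of_nonneg_left (hC x hx.1) (Real.exp_pos _).le).trans (le_of_eq ?_)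
        rw [mul_left_comm, ← Real.exp_add]; congr 2; rw [hκ]; ring) ⟨ht, le_rfl⟩
    rw [norm_smul, hn] at key
    have e1 : Real.exp (a.re * t) * Real.exp (-a.re * t) = 1 := by
      rw [← Real.exp_add]; simp
    have e2 : Real.exp (a.re * t) * Real.exp (κ * t) = Real.exp (-δ * t) := by
      rw [← Real.exp_add]; congr 1; rw [hκ]; ring
    have e3 : Real.exp (a.re * t) ≤ Real.exp (-δ * t) :=
      Real.exp_le_exp.2 (mul_le_mul_of_nonneg_right ha.le ht)
    have k2 := mul_le_mul_of_nonneg_left key (Real.exp_pos (a.re * t)).le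
    rw [← mul_assoc, e1, one_mul, mul_add, mul_left_comm, e2] at k2
    nlinarith [norm_nonneg W]

end

lemma lyap {𝔸 : Type*} [CStarAlgebra 𝔸] (M : 𝔸) (δ C : ℝ) (hδ : 0 < δ)
    (h : ∀ t : ℝ, 0 ≤ t → ‖exp ((t : ℂ) • M)‖ ≤ C * Real.exp (-δ * t)) :
    IntegrableOn (fun t : ℝ => star (exp ((t : ℂ) • M)) * exp ((t : ℂ) • M)) (Ioi 0) ∧
    star M * (∫ t in Ioi (0 : ℝ), star (exp ((t : ℂ) • M)) * exp ((t : ℂ) • M))
      + (∫ t in Ioi (0 : ℝ), star (exp ((t : ℂ) • M)) * exp ((t : ℂ) • M)) * M = -1 := by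
  set G := fun t : ℝ => star (exp ((t : ℂ) • M)) * exp ((t : ℂ) • M) with hG
  have hdG : ∀ t, HasDerivAt G (star M * G t + G t * M) t := by
    intro t
    refine ((hd M t).star.mul (hd M t)).congr_deriv ?_
    simp only [hG, star_mul, mul_assoc]
  have hb : ∀ t, 0 ≤ t → ‖G t‖ ≤ C ^ 2 * Real.exp (-(2 * δ) * t) := by
    intro t ht
    have e : Real.exp (-(2 * δ) * t) = Real.exp (-δ * t) ^ 2 := by
      rw [← Real.exp_nat_mul]; congr 1; push_cast; ring
    rw [hG, e, ← mul_pow]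
    simp only [CStarRing.norm_star_mul_self]
    rw [← sq]
    exact pow_le_pow_left₀ (norm_nonneg _) (h t ht) 2
  have hc : Continuous G := continuous_iff_continuousAt.2 fun t => (hdG t).continuousAt
  have hi : IntegrableOn G (Ioi 0) := by
    refine Integrable.mono' ((integrableOn_exp_mul_Ioi (a := -(2 * δ)) (by linarith) 0).const_mul
      (C ^ 2)) hc.aestronglyMeasurable ?_
    filter_upwards [ae_restrict_mem measurableSet_Ioi] with t ht using hb t (le_of_lt ht)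
  refine ⟨hi, ?_⟩
  have ht : Tendsto G atTop (𝓝 0) := by
    have h1 : Tendsto (fun t : ℝ => C ^ 2 * Real.exp (-(2 * δ) * t)) atTop (𝓝 (C ^ 2 * 0)) :=
      (Real.tendsto_exp_atBot.comp
        (tendsto_id.const_mul_atTop_of_neg (by linarith))).const_mul _
    rw [mul_zero] at h1
    refine squeeze_zero_norm' ?_ h1
    filter_upwards [eventually_ge_atTop 0] with t ht using hb t ht
  have h2 := integral_Ioi_of_hasDerivAt_of_tendsto hc.continuousWithinAt (fun x _ => hdG x)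
    ((hi.const_mul (star M)).add (hi.mul_const M)) ht
  rw [integral_add (hi.const_mul (star M)) (hi.mul_const M), integral_const_mul_of_integrable hi,
    integral_mul_const_of_integrable hi] at h2
  rw [h2]; simp [hG]

open Matrix
open scoped Matrix.Norms.L2Operator ComplexOrder MatrixOrder

lemma norm_le_tr {n : ℕ} {T : Matrix (Fin n) (Fin n) ℂ} (h : T.PosSemidef) :
    ‖T‖ ≤ T.trace.re := by
  rcases Nat.eq_zero_or_pos n with rfl | hn
  · rw [Subsingleton.elim T 0]; simp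
  have : Nonempty (Fin n) := ⟨⟨0, hn⟩⟩
  have h1 := CStarAlgebra.norm_mem_spectrum_of_nonneg h.nonneg
  rw [h.1.spectrum_real_eq_range_eigenvalues] at h1
  obtain ⟨i, hi⟩ := h1
  rw [h.1.trace_eq_sum_eigenvalues, ← hi, Complex.re_sum]
  exact Finset.single_le_sum (f := fun j => h.1.eigenvalues j)
    (fun j _ => h.eigenvalues_nonneg j) (Finset.mem_univ i)

lemma tr_inv {n : ℕ} (M N : Matrix (Fin n) (Fin n) ℂ) (h1 : M * N = 1) (h2 : N * M = 1) (γ : ℝ)
    (hγ : 0 < γ) (h : ∀ μ ∈ spectrum ℂ M, μ.re ≤ -γ) : -N.trace.re ≤ n / γ := by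
  have hr : ∀ μ ∈ N.charpoly.roots, -μ.re ≤ 1 / γ := by
    intro μ hμ
    have h3 : μ ∈ spectrum ℂ N := mem_spectrum_iff_isRoot_charpoly.2
      ((Polynomial.mem_roots N.charpoly_monic.ne_zero).1 hμ)
    have h4 : μ⁻¹ ∈ spectrum ℂ M :=
      (spectrum.inv₀_mem_iff (a := ⟨M, N, h1, h2⟩)).2 h3
    have h5 := h _ h4
    have h6 : γ ≤ ‖μ‖⁻¹ := by
      rw [← norm_inv]
      linarith [(abs_le.1 (Complex.abs_re_le_norm μ⁻¹)).1]
    have h7 : 0 < ‖μ‖ := inv_pos.1 (hγ.trans_le h6)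
    have h8 : ‖μ‖ ≤ 1 / γ := by
      rw [one_div]; exact (le_inv_comm₀ hγ h7).1 h6
    linarith [(abs_le.1 (Complex.abs_re_le_norm μ)).1]
  rw [trace_eq_sum_roots_charpoly]
  have hc : N.charpoly.roots.card = n := by
    rw [IsAlgClosed.card_roots_eq_natDegree, charpoly_natDegree_eq_dim, Fintype.card_fin]
  have := Multiset.sum_le_card_nsmul (N.charpoly.roots.map fun μ => -μ.re) (1 / γ) (by
    intro x hx
    obtain ⟨μ, hμ, rfl⟩ := Multiset.mem_map.1 hx
    exact hr μ hμ)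
  rw [Multiset.card_map, hc, nsmul_eq_mul, mul_one_div, Multiset.sum_map_neg] at this
  have e := map_multiset_sum Complex.reAddGroupHom N.charpoly.roots
  simp only [Complex.coe_reAddGroupHom] at e
  rw [e]; exact this

lemma alg {n : ℕ} (A M P Y : Matrix (Fin n) (Fin n) ℂ) (hY : Y ≠ 0) (hMY : Mᴴ * Y = Aᴴ * Y)
    (hP : P.PosSemidef) (hL : Mᴴ * P + P * M = -1) (γ : ℝ) (hγ : 0 < γ)
    (h : ∀ μ ∈ spectrum ℂ M, μ.re ≤ -γ) : γ ≤ 2 * n * ‖A‖ ^ 2 * ‖P‖ := by
  have hM : IsUnit M := by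
    by_contra hM
    have := h 0 ((spectrum.zero_mem_iff ℂ).2 hM)
    simp at this; linarith
  obtain ⟨⟨M, N, h1, h2⟩, rfl⟩ := hM
  simp only at *
  obtain ⟨S, rfl⟩ := CStarAlgebra.nonneg_iff_eq_mul_star_self.mp hP.nonneg
  rw [star_eq_conjTranspose] at *
  have hS : IsUnit Sᴴ := by
    rw [← mulVec_injective_iff_isUnit]
    refine (injective_iff_map_eq_zero (Sᴴ).mulVecLin).2 fun x hx => ?_
    have hx' : Sᴴ *ᵥ x = 0 := hx
    have h3 : star x ᵥ* S = 0 := by
      have := congrArg star hx'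
      rwa [star_mulVec, conjTranspose_conjTranspose, star_zero] at this
    have h4 := congrArg (fun Z => star x ⬝ᵥ Z *ᵥ x) hL
    simp only [add_mulVec, ← mulVec_mulVec, hx', mulVec_zero, zero_add, dotProduct_mulVec (star x) S,
      h3, zero_dotProduct, neg_mulVec, one_mulVec, dotProduct_neg] at h4
    exact dotProduct_star_self_eq_zero.1 (neg_eq_zero.1 h4.symm)
  obtain ⟨⟨S', U, h3, h4⟩, h5⟩ := hS
  simp only at h5
  subst h5
  have h3' : Uᴴ * S = 1 := by
    simpa using congrArg conjTranspose h3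
  have h4' : S * Uᴴ = 1 := by
    simpa using congrArg conjTranspose h4
  have h1' : Nᴴ * Mᴴ = 1 := by simpa using congrArg conjTranspose h1
  -- R = N * U
  have e1 : (N * U) * (N * U)ᴴ = -(N * (U * Uᴴ * (Nᴴ * (Mᴴ * (S * Sᴴ) + S * Sᴴ * M)))) := by
    rw [hL]; simp [Matrix.mul_assoc]
  have e2 : ((N * U) * (N * U)ᴴ).trace = -(N.trace + Nᴴ.trace) := by
    rw [e1, trace_neg, Matrix.mul_add, Matrix.mul_add, Matrix.mul_add, trace_add]
    congr 2
    · rw [← Matrix.mul_assoc Nᴴ, h1', Matrix.one_mul, Matrix.mul_assoc U, ← Matrix.mul_assoc Uᴴ,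
        h3', Matrix.one_mul, h4, Matrix.mul_one]
    · rw [trace_mul_comm]
      simp only [Matrix.mul_assoc, h1, Matrix.mul_one]
      rw [trace_mul_comm, Matrix.mul_assoc, Matrix.mul_assoc, Matrix.mul_assoc, h3, Matrix.mul_one,
        trace_mul_comm, Matrix.mul_assoc, h4', Matrix.mul_one]
  have e3 := norm_le_tr (posSemidef_self_mul_conjTranspose (N * U))
  rw [e2, trace_conjTranspose, Complex.neg_re, Complex.add_re, Complex.star_def,
    Complex.conj_re, ← star_eq_conjTranspose, CStarRing.norm_self_mul_star] at e3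
  have e4 := tr_inv M N h1 h2 γ hγ h
  have e5 : Y = S * ((N * U)ᴴ * (Aᴴ * Y)) := by
    rw [← hMY, conjTranspose_mul, Matrix.mul_assoc, ← Matrix.mul_assoc Nᴴ, h1', Matrix.one_mul,
      ← Matrix.mul_assoc, h4', Matrix.one_mul]
  have e6 : ‖Y‖ ≤ ‖S‖ * (‖N * U‖ * (‖A‖ * ‖Y‖)) := by
    conv_lhs => rw [e5]
    refine (norm_mul_le _ _).trans (mul_le_mul_of_nonneg_left ?_ (norm_nonneg _))
    refine (norm_mul_le _ _).trans ?_
    rw [l2_opNorm_conjTranspose]
    refine mul_le_mul_of_nonneg_left ?_ (norm_nonneg _)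
    refine (norm_mul_le _ _).trans ?_
    rw [l2_opNorm_conjTranspose]
  have hY0 : 0 < ‖Y‖ := norm_pos_iff.2 hY
  have e7 : 1 ≤ ‖S‖ * ‖N * U‖ * ‖A‖ := by
    by_contra hc
    push Not at hc
    nlinarith
  rw [← star_eq_conjTranspose, CStarRing.norm_self_mul_star]
  have e8 : ‖N * U‖ * ‖N * U‖ * γ ≤ 2 * n := by
    have : ‖N * U‖ * ‖N * U‖ ≤ 2 * (n / γ) := by linarith
    rw [← mul_div_assoc, le_div_iff₀ hγ] at this
    exact this
  have e9 : 1 ≤ (‖S‖ * ‖N * U‖ * ‖A‖) ^ 2 := one_le_pow₀ e7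
  have e10 := mul_le_mul_of_nonneg_left e8 (by positivity : 0 ≤ ‖A‖ ^ 2 * (‖S‖ * ‖S‖))
  nlinarith [mul_le_mul_of_nonneg_left e9 hγ.le]

theorem result (n m : ℕ) (hm : m < n) (A : Matrix (Fin n) (Fin n) ℂ)
    (B : Matrix (Fin n) (Fin m) ℂ) (F : Matrix (Fin m) (Fin n) ℂ) (γ : ℝ) (hγ : 0 < γ)
    (h : ∀ μ ∈ spectrum ℂ (A - B * F), μ.re ≤ -γ) :
    MeasureTheory.IntegrableOn (fun t : ℝ => (NormedSpace.exp ((t : ℂ) • (A - B * F)))ᴴ
      * NormedSpace.exp ((t : ℂ) • (A - B * F))) (Set.Ioi 0) ∧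
    γ ≤ 2 * n * ‖A‖ ^ 2 * ‖∫ t in Set.Ioi (0 : ℝ), (NormedSpace.exp ((t : ℂ) • (A - B * F)))ᴴ
      * NormedSpace.exp ((t : ℂ) • (A - B * F))‖ := by
  set M := A - B * F with hM
  obtain ⟨C, -, hC⟩ := decay M (γ / 2) M.charpoly.roots.toList (fun a ha => by
    have := h a (mem_spectrum_iff_isRoot_charpoly.2 ((Polynomial.mem_roots
      M.charpoly_monic.ne_zero).1 (Multiset.mem_toList.1 ha)))
    linarith) 1 (by
    have h1 := aeval_self_charpoly M
    rw [(IsAlgClosed.splits M.charpoly).eq_prod_roots_of_monic M.charpoly_monic,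
      ← Multiset.prod_map_toList, map_list_prod, List.map_map] at h1
    rw [mul_one, ← h1]
    congr 2
    funext a; simp)
  simp only [mul_one] at hC
  obtain ⟨hi, hL⟩ := lyap M (γ / 2) C (by linarith) hC
  refine ⟨hi, ?_⟩
  obtain ⟨y, hy0, hy⟩ : ∃ y : Fin n → ℂ, y ≠ 0 ∧ Bᴴ *ᵥ y = 0 := by
    obtain ⟨y, hy, hy0⟩ := (Submodule.ne_bot_iff _).1
      (LinearMap.ker_ne_bot_of_finrank_lt (f := Bᴴ.mulVecLin) (by simpa using hm))
    exact ⟨y, hy0, hy⟩
  refine alg A M _ (Matrix.of fun i _ => y i) (fun h0 => hy0 ?_) ?_ ?_ hL γ hγ h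
  · funext i; exact congrFun (congrFun h0 i) i
  · have : Bᴴ * (Matrix.of fun i (_ : Fin n) => y i) = 0 := by
      ext i j; exact congrFun hy i
    rw [hM, conjTranspose_sub, conjTranspose_mul, Matrix.sub_mul, Matrix.mul_assoc, this]
    simp
  · exact nonneg_iff_posSemidef.1 (integral_nonneg fun t => star_mul_self_nonneg _)

end Pool.Agent.Results.MP_cf5fc4_an.Growth
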